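import Pool.Agent.Helper37_CAP.Stmts

/-!
# Squad CAP, module FXP (helper51)
-/

set_option autoImplicit false

open Finset

namespace Pool.Agent.CAP.H51

theorem sq_one (k : ℕ) : ((k + 1 : ℕ) : ZMod (k * (k + 2))) * ((k + 1 : ℕ) : ZMod (k * (k + 2))) = 1 := by
  have h : ((k * (k + 2) : ℕ) : ZMod (k * (k + 2))) = 0 := ZMod.natCast_self _
  have h2 : (k + 1) * (k + 1) = k * (k + 2) + 1 := by ring
  rw [← Nat.cast_mul, h2, Nat.cast_add, h]
  simp

/-- **FXP** -/
theorem fxp (hDSE : DSE) (hTRA : TRA) (hMUA : MUA) (hMUB : MUB) : FXP := by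
  intro k hk ⟨D0, hD0⟩
  obtain ⟨hT0, a, ha⟩ := hTRA k D0 hk hD0
  set D : Finset (ZMod (k * (k + 2))) := D0.image (fun d => d + a) with hD
  have hAD : ADS k D := hT0 a
  refine ⟨D, hAD, fun p hp hpk => ?_⟩
  -- a multiplier with a shift
  obtain ⟨h', hh'⟩ : ∃ h' : ZMod (k * (k + 2)), ∀ d ∈ D, (p : ZMod (k * (k + 2))) * d - h' ∈ D := by
    obtain ⟨c₀, hc₀⟩ := hDSE k D hk hAD
    obtain ⟨b, hb⟩ : ∃ b, pr k b = -c₀ := ZMod.ringHom_surjective (pr k) (-c₀)
    obtain ⟨hT, -⟩ := hTRA k D hk hAD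
    have hAD' := hT b
    have hmiss : ∀ d ∈ D.image (fun d => d + b), pr k d ≠ 0 := by
      intro d hd h0
      obtain ⟨e, he, rfl⟩ := Finset.mem_image.mp hd
      rw [map_add, hb, ← sub_eq_add_neg, sub_eq_zero] at h0
      exact (hc₀ (pr k e)).mp ⟨e, he, rfl⟩ h0
    obtain ⟨h, hh⟩ := hMUB k _ hk hAD' hmiss p hp hpk (hMUA k _ hk hAD' hmiss p hp hpk)
    refine ⟨h + b - p * b, fun d hd => ?_⟩
    obtain ⟨e, he, hee⟩ := Finset.mem_image.mp (hh (d + b) (Finset.mem_image_of_mem _ hd))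
    have : (p : ZMod (k * (k + 2))) * d - (h + b - p * b) = e := by
      have h1 : e = p * (d + b) - h - b := by rw [← hee]; ring
      rw [h1]; ring
    rw [this]
    exact he
  -- p is a unit
  obtain ⟨q, hq⟩ := hpk
  have hpu : ∀ x y : ZMod (k * (k + 2)), (p : ZMod (k * (k + 2))) * x = p * y → x = y := by
    intro x y hxy
    have h1 := sq_one k
    rw [hq, Nat.cast_mul] at h1
    have h2 : (q : ZMod (k * (k + 2))) * (p * q) * (p * x) = q * (p * q) * (p * y) := by rw [hxy]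
    calc x = (p * q * (p * q)) * x := by rw [h1, one_mul]
      _ = q * (p * q) * (p * x) := by ring
      _ = q * (p * q) * (p * y) := h2
      _ = (p * q * (p * q)) * y := by ring
      _ = y := by rw [h1, one_mul]
  have hinj : Set.InjOn (fun d : ZMod (k * (k + 2)) => (p : ZMod (k * (k + 2))) * d - h') ↑D := by
    intro x _ y _ hxy
    exact hpu x y (sub_left_injective hxy)
  have himg : D.image (fun d => (p : ZMod (k * (k + 2))) * d - h') = D := by
    apply Finset.eq_of_subset_of_card_le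
    · intro x hx
      obtain ⟨d, hd, rfl⟩ := Finset.mem_image.mp hx
      exact hh' d hd
    · rw [Finset.card_image_of_injOn hinj]
  have hsum : ∑ d ∈ D, ((p : ZMod (k * (k + 2))) * d - h') = ∑ d ∈ D, d := by
    conv_rhs => rw [← himg]
    rw [Finset.sum_image hinj]
  have hcard : (D.card : ZMod (k * (k + 2))) = ((k + 1 : ℕ) : ZMod (k * (k + 2))) := by
    rw [hAD.card]
  rw [Finset.sum_sub_distrib, ← Finset.mul_sum, ha, mul_zero, Finset.sum_const, nsmul_eq_mul,
    hcard, zero_sub, neg_eq_zero] at hsum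
  have h0 : h' = 0 := by
    calc h' = (((k + 1 : ℕ) : ZMod (k * (k + 2))) * ((k + 1 : ℕ) : ZMod (k * (k + 2)))) * h' := by
          rw [sq_one, one_mul]
      _ = ((k + 1 : ℕ) : ZMod (k * (k + 2))) * (((k + 1 : ℕ) : ZMod (k * (k + 2))) * h') := by ring
      _ = 0 := by rw [hsum, mul_zero]
  intro d hd
  have := hh' d hd
  rwa [h0, sub_zero] at this

end Pool.Agent.CAP.H51
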