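import Pool.Agent.Helper37_CAP.Stmts

/-!
# Squad CAP, module SBB (helper51)
-/

set_option autoImplicit false

open Finset

namespace Pool.Agent.CAP.H51

/-- the fixed elements of the multiplication by `t` -/
def fixG (M t : ℕ) : AddSubgroup (ZMod M) where
  carrier := {g | (t : ZMod M) * g = g}
  zero_mem' := by simp
  add_mem' := by
    intro a b ha hb
    simp only [Set.mem_ofPred_eq] at *
    rw [mul_add, ha, hb]
  neg_mem' := by
    intro a ha
    simp only [Set.mem_ofPred_eq] at *
    rw [mul_neg, ha]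

theorem mem_fixG (M t : ℕ) (g : ZMod M) : g ∈ fixG M t ↔ (t : ZMod M) * g = g := Iff.rfl

theorem card_fixG' (M t : ℕ) [NeZero M] :
    Nat.card (fixG M t) =
      ((Finset.univ : Finset (ZMod M)).filter (fun g => (t : ZMod M) * g = g)).card := by
  have e : fixG M t ≃ {g : ZMod M // (t : ZMod M) * g = g} :=
    { toFun := fun x => ⟨x.1, x.2⟩
      invFun := fun g => ⟨g.1, g.2⟩
      left_inv := fun _ => rfl
      right_inv := fun _ => rfl }
  rw [Nat.card_congr e, Nat.card_eq_fintype_card, Fintype.card_subtype]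

theorem card_fixG (hFPC : FPC) (M t : ℕ) [NeZero M] (ht : 1 ≤ t) :
    Nat.card (fixG M t) = Nat.gcd (t - 1) M := by
  rw [← hFPC M t ht, card_fixG']

theorem pr_zero_iff (k : ℕ) [NeZero (k * (k + 2))] (g : ZMod (k * (k + 2))) :
    pr k g = 0 ↔ k + 2 ∣ g.val := by
  have h1 : pr k g = ((g.val : ℕ) : ZMod (k + 2)) := by
    conv_lhs => rw [← ZMod.natCast_zmod_val g]
    rw [map_natCast]
  rw [h1, ZMod.natCast_eq_zero_iff]

theorem mul_eq_self_iff (M : ℕ) [NeZero M] (t : ℕ) (ht : 1 ≤ t) (i : ℕ) :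
    (t : ZMod M) * (i : ZMod M) = (i : ZMod M) ↔ M ∣ (t - 1) * i := by
  rw [← ZMod.natCast_eq_zero_iff, Nat.cast_mul, Nat.cast_sub ht, Nat.cast_one, sub_mul, one_mul,
    sub_eq_zero]

theorem card_kernel (hFPC : FPC) (k : ℕ) [NeZero (k * (k + 2))] (hk : 1 ≤ k) (t : ℕ)
    (ht : 1 ≤ t) :
    ((Finset.univ : Finset (ZMod (k * (k + 2)))).filter
      (fun g => (t : ZMod (k * (k + 2))) * g = g ∧ pr k g = 0)).card = Nat.gcd (t - 1) k := by
  have : NeZero k := ⟨by omega⟩
  rw [← hFPC k t ht]
  symm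
  refine Finset.card_bij (fun i _ => (((k + 2) * i.val : ℕ) : ZMod (k * (k + 2)))) ?_ ?_ ?_
  · intro i hi
    rw [Finset.mem_filter] at hi ⊢
    refine ⟨Finset.mem_univ _, ?_, ?_⟩
    · rw [mul_eq_self_iff _ _ ht]
      have h1 : (t : ZMod k) * ((i.val : ℕ) : ZMod k) = ((i.val : ℕ) : ZMod k) := by
        rw [ZMod.natCast_zmod_val]; exact hi.2
      rw [mul_eq_self_iff _ _ ht] at h1
      have h2 : (t - 1) * ((k + 2) * i.val) = ((t - 1) * i.val) * (k + 2) := by ring
      rw [h2]
      exact Nat.mul_dvd_mul_right h1 _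
    · rw [map_natCast, ZMod.natCast_eq_zero_iff]
      exact Dvd.intro _ rfl
  · intro i _ j _ hij
    have h1 : ((k + 2) * i.val) % (k * (k + 2)) = ((k + 2) * j.val) % (k * (k + 2)) :=
      (ZMod.natCast_eq_natCast_iff' _ _ _).mp hij
    have hi := ZMod.val_lt i
    have hj := ZMod.val_lt j
    rw [Nat.mod_eq_of_lt (by nlinarith), Nat.mod_eq_of_lt (by nlinarith)] at h1
    have h2 : i.val = j.val := Nat.eq_of_mul_eq_mul_left (by omega) h1
    exact ZMod.val_injective k h2
  · intro g hg
    rw [Finset.mem_filter] at hg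
    obtain ⟨-, hg1, hg2⟩ := hg
    rw [pr_zero_iff] at hg2
    obtain ⟨i, hi⟩ := hg2
    have hgl := ZMod.val_lt g
    have hil : i < k := by
      rw [hi] at hgl
      by_contra hcon
      push Not at hcon
      have : k * (k + 2) ≤ (k + 2) * i := by nlinarith
      omega
    refine ⟨(i : ZMod k), ?_, ?_⟩
    · rw [Finset.mem_filter]
      refine ⟨Finset.mem_univ _, ?_⟩
      rw [mul_eq_self_iff _ _ ht]
      have h1 : (t : ZMod (k * (k + 2))) * ((g.val : ℕ) : ZMod (k * (k + 2))) =
          ((g.val : ℕ) : ZMod (k * (k + 2))) := by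
        rw [ZMod.natCast_zmod_val]; exact hg1
      rw [mul_eq_self_iff _ _ ht, hi] at h1
      have h2 : (t - 1) * ((k + 2) * i) = ((t - 1) * i) * (k + 2) := by ring
      rw [h2] at h1
      exact Nat.dvd_of_mul_dvd_mul_right (by omega) h1
    · rw [ZMod.val_natCast_of_lt hil, ← hi, ZMod.natCast_zmod_val]

/-- **SBB** -/
theorem sbb (_hDSE : DSE) (hFPC : FPC) (hSBA : SBA) : SBB := by
  intro k _ D hk hD t ht hcop htD ha
  have hker := card_kernel hFPC k hk t ht
  refine ⟨?_, hker⟩
  set H := fixG (k * (k + 2)) t with hH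
  set F := fixG (k + 2) t with hF
  let φ : H →+ ZMod (k + 2) := (pr k).toAddMonoidHom.comp H.subtype
  have hφ : ∀ x : H, φ x = pr k x := fun _ => rfl
  have hle : φ.range ≤ F := by
    rintro _ ⟨x, rfl⟩
    rw [hF, mem_fixG, hφ]
    have h1 : (t : ZMod (k * (k + 2))) * (x : ZMod (k * (k + 2))) = x := x.2
    conv_rhs => rw [← h1]
    rw [map_mul, map_natCast]
  have hcF : Nat.card F = Nat.gcd (t - 1) (k + 2) := card_fixG hFPC (k + 2) t ht
  -- the range is large
  have hK := hSBA k D hk hD t ht hcop htD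
  set K := D.filter (fun d => (t : ZMod (k * (k + 2))) * d = d) with hKdef
  have hKr : K.card ≤ Nat.card φ.range := by
    have h1 : (K.image (pr k)).card = K.card := by
      apply Finset.card_image_of_injOn
      intro x hx y hy hxy
      exact hD.inj x (Finset.mem_filter.mp hx).1 y (Finset.mem_filter.mp hy).1 hxy
    rw [← h1, ← Set.ncard_coe_finset]
    have h2 : Nat.card φ.range = (φ.range : Set (ZMod (k + 2))).ncard := rfl
    rw [h2]
    apply Set.ncard_le_ncard
    · intro c hc
      simp only [Finset.coe_image, Set.mem_image, Finset.mem_coe] at hc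
      obtain ⟨d, hd, rfl⟩ := hc
      exact ⟨⟨d, (Finset.mem_filter.mp hd).2⟩, rfl⟩
    · exact Set.toFinite _
  have hdvd : Nat.card φ.range ∣ Nat.card F := AddSubgroup.card_dvd_of_le hle
  have hrange : Nat.card φ.range = Nat.gcd (t - 1) (k + 2) := by
    rw [hcF] at hdvd
    obtain ⟨c, hc⟩ := hdvd
    have hc0 : c ≠ 0 := by
      rintro rfl
      rw [mul_zero] at hc
      omega
    have hc2 : c < 2 := by
      by_contra hcon
      push Not at hcon
      have : Nat.card φ.range * 2 ≤ Nat.gcd (t - 1) (k + 2) := by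
        rw [hc]; exact Nat.mul_le_mul_left _ hcon
      omega
    have : c = 1 := by omega
    rw [this, mul_one] at hc
    exact hc.symm
  have hkerφ : Nat.card φ.ker = Nat.gcd (t - 1) k := by
    rw [← hker]
    have e : φ.ker ≃ {g : ZMod (k * (k + 2)) // (t : ZMod (k * (k + 2))) * g = g ∧ pr k g = 0} :=
      { toFun := fun x => ⟨x.1.1, x.1.2, x.2⟩
        invFun := fun g => ⟨⟨g.1, g.2.1⟩, g.2.2⟩
        left_inv := fun _ => rfl
        right_inv := fun _ => rfl }
    rw [Nat.card_congr e, Nat.card_eq_fintype_card, Fintype.card_subtype]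
  have hmul : Nat.card H = Nat.card φ.ker * Nat.card φ.range := by
    rw [← AddSubgroup.index_ker, AddSubgroup.card_mul_index]
  have hHc : Nat.card H = ((Finset.univ : Finset (ZMod (k * (k + 2)))).filter
      (fun g => (t : ZMod (k * (k + 2))) * g = g)).card := card_fixG' _ _
  rw [← hHc, hmul, hkerφ, hrange, mul_comm]

end Pool.Agent.CAP.H51
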